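import Mathlib

set_option autoImplicit false
set_option linter.unusedSectionVars false

open Filter Topology

namespace Pool.Agent.H751Z.Ill

variable {ι : Type} [Fintype ι] [DecidableEq ι]

/-- `a` is an outer normal vector of `K` at `x` -/
def Nrm (K : Set (ι → ℝ)) (x a : ι → ℝ) : Prop := ∀ y ∈ K, a ⬝ᵥ y ≤ a ⬝ᵥ x

theorem ill {K : Set (ι → ℝ)} (hv : Convex ℝ K) (hi : (interior K).Nonempty) {x v : ι → ℝ}
    (h : ∀ a, a ≠ 0 → Nrm K x a → 0 < a ⬝ᵥ v) : ∃ t : ℝ, 0 < t ∧ x - t • v ∈ interior K := by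
  by_contra hc
  push Not at hc
  let R : Set (ι → ℝ) := (fun t : ℝ => x - t • v) '' Set.Ioi 0
  have hR : Convex ℝ R := by
    rintro _ ⟨s, hs, rfl⟩ _ ⟨t, ht, rfl⟩ p q hp hq hpq
    refine ⟨p * s + q * t, ?_, ?_⟩
    · exact (convex_Ioi (0 : ℝ)) hs ht hp hq hpq
    · have : q = 1 - p := by linarith
      subst this
      ext i
      simp
      ring
  have hd : Disjoint (interior K) R := by
    rw [Set.disjoint_right]
    rintro _ ⟨t, ht, rfl⟩
    exact hc t ht
  obtain ⟨f, u, h1, h2⟩ := geometric_hahn_banach_open hv.interior isOpen_interior hR hd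
  let a : ι → ℝ := fun i => f (Pi.single i 1)
  have hf : ∀ y, f y = a ⬝ᵥ y := by
    intro y
    conv_lhs => rw [pi_eq_sum_univ' y]
    rw [map_sum]
    simp only [map_smul, smul_eq_mul, dotProduct, a]
    refine Finset.sum_congr rfl fun i _ => ?_
    rw [mul_comm]
  have h3 : ∀ t : ℝ, 0 < t → u ≤ f x - t * f v := by
    intro t ht
    have := h2 _ ⟨t, ht, rfl⟩
    simpa using this
  have h4 : u ≤ f x := by
    by_contra hlt
    push Not at hlt
    have hpos : 0 < (u - f x) / (|f v| + 1) := div_pos (by linarith) (by positivity)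
    have h5 := h3 _ hpos
    have h6 : (u - f x) / (|f v| + 1) * (|f v| + 1) = u - f x := by field_simp
    have h7 := neg_abs_le (f v)
    nlinarith
  have h5 : f v ≤ 0 := by
    by_contra hlt
    push Not at hlt
    have hpos : 0 < (f x - u + 1) / f v := div_pos (by linarith) hlt
    have h5 := h3 _ hpos
    have h6 : (f x - u + 1) / f v * f v = f x - u + 1 := by field_simp
    linarith
  have h6 : ∀ y ∈ K, f y ≤ u := by
    intro y hy
    have : y ∈ closure (interior K) := by
      rw [hv.closure_interior_eq_closure_of_nonempty_interior hi]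
      exact subset_closure hy
    exact closure_minimal (fun z hz => (h1 z hz).le)
      (isClosed_le f.continuous continuous_const) this
  obtain ⟨z, hz⟩ := hi
  have ha : a ≠ 0 := by
    intro h0
    have := h1 z hz
    rw [hf, h0] at this
    rw [hf, h0] at h4
    simp at this h4
    linarith
  have := h a ha (fun y hy => by rw [← hf, ← hf]; linarith [h6 y hy])
  rw [← hf] at this
  linarith

theorem cover {K : Set (ι → ℝ)} (hc : IsCompact K) (hv : Convex ℝ K) {D : Type}
    (v : D → ι → ℝ) (h : ∀ x ∈ K, ∃ d, ∃ t : ℝ, 0 < t ∧ x - t • v d ∈ interior K) :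
    ∃ t : ℝ, ∀ x ∈ K, ∃ d, x - t • v d ∈ interior K := by
  have key := hc.eventually_forall_of_forall_eventually (x₀ := (0 : ℝ))
    (P := fun t x => 0 < t → x ∈ K → ∃ d, x - t • v d ∈ interior K) (by
      intro x hx
      obtain ⟨d, t, ht, hm⟩ := h x hx
      have h1 : ∀ᶠ z : ℝ × (ι → ℝ) in 𝓝 (0, x), z.2 - t • v d ∈ interior K := by
        have : Continuous fun z : ℝ × (ι → ℝ) => z.2 - t • v d := by fun_prop
        exact this.continuousAt.eventually_mem (isOpen_interior.mem_nhds hm)
      have h2 : ∀ᶠ z : ℝ × (ι → ℝ) in 𝓝 (0, x), z.1 < t :=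
        continuous_fst.continuousAt.eventually_lt continuousAt_const ht
      filter_upwards [h1, h2] with z hz1 hz2 hz3 hz4
      refine ⟨d, ?_⟩
      have := hv.combo_self_interior_mem_interior hz4 hz1 (a := 1 - z.1 / t) (b := z.1 / t)
        (by rw [sub_nonneg, div_le_one ht]; exact hz2.le) (div_pos hz3 ht) (by ring)
      convert this using 1
      ext i
      simp
      field_simp
      ring)
  obtain ⟨t, ht, ht2⟩ := (key.filter_mono (nhdsWithin_le_nhds (s := Set.Ioi (0 : ℝ)))).and
    self_mem_nhdsWithin |>.exists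
  exact ⟨t, fun x hx => ht x hx ht2 hx⟩

theorem lex {K : Set (ι → ℝ)} (hc : IsCompact K) {D : Type} (u w : D → ι → ℝ)
    (h : ∀ x ∈ K, ∃ d, (∀ᶠ y in 𝓝 x, y ∈ K → ∀ a, Nrm K y a → 0 ≤ a ⬝ᵥ u d) ∧
      ∀ a, a ≠ 0 → Nrm K x a → a ⬝ᵥ u d = 0 → 0 < a ⬝ᵥ w d) :
    ∃ e : ℝ, ∀ x ∈ K, ∃ d, ∀ a, a ≠ 0 → Nrm K x a → 0 < a ⬝ᵥ (u d + e • w d) := by
  have key := hc.eventually_forall_of_forall_eventually (x₀ := (0 : ℝ))
    (P := fun e x => 0 < e → x ∈ K → ∃ d, ∀ a, a ≠ 0 → Nrm K x a →
      0 < a ⬝ᵥ (u d + e • w d)) (by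
      intro x hx
      obtain ⟨d, h1, h2⟩ := h x hx
      have h0 := h1.self_of_nhds hx
      have k2 := (isCompact_sphere (0 : ι → ℝ) 1).eventually_forall_of_forall_eventually
        (x₀ := ((0 : ℝ), x))
        (P := fun z a => Nrm K z.2 a → a ⬝ᵥ w d ≤ 0 → 0 < a ⬝ᵥ (u d + z.1 • w d)) (by
          intro a ha
          have ha0 : a ≠ 0 := by
            rintro rfl
            simp at ha
          by_cases hn : Nrm K x a
          · by_cases hw : 0 < a ⬝ᵥ w d
            · have : ∀ᶠ z : (ℝ × (ι → ℝ)) × (ι → ℝ) in 𝓝 ((0, x), a), 0 < z.2 ⬝ᵥ w d :=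
                continuousAt_const.eventually_lt (by fun_prop) hw
              filter_upwards [this] with z hz _ hz2
              linarith
            · have hu : 0 < a ⬝ᵥ u d := by
                rcases (h0 a hn).lt_or_eq with h3 | h3
                · exact h3
                · exact absurd (h2 a ha0 hn h3.symm) hw
              have : ∀ᶠ z : (ℝ × (ι → ℝ)) × (ι → ℝ) in 𝓝 ((0, x), a),
                  0 < z.2 ⬝ᵥ (u d + z.1.1 • w d) :=
                continuousAt_const.eventually_lt (by fun_prop) (by simpa using hu)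
              filter_upwards [this] with z hz _ _
              exact hz
          · simp only [Nrm, not_forall, not_le] at hn
            obtain ⟨y, hy, hlt⟩ := hn
            have : ∀ᶠ z : (ℝ × (ι → ℝ)) × (ι → ℝ) in 𝓝 ((0, x), a), z.2 ⬝ᵥ z.1.2 < z.2 ⬝ᵥ y :=
              ContinuousAt.eventually_lt (by fun_prop) (by fun_prop) hlt
            filter_upwards [this] with z hz hz2 _
            exact absurd (hz2 y hy) (not_le.2 hz))
      have k3 : ∀ᶠ z : ℝ × (ι → ℝ) in 𝓝 (0, x), z.2 ∈ K → ∀ a, Nrm K z.2 a → 0 ≤ a ⬝ᵥ u d :=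
        (continuous_snd.tendsto ((0 : ℝ), x)).eventually h1
      filter_upwards [k2, k3] with z hz1 hz2 he hzK
      refine ⟨d, fun a ha hn => ?_⟩
      by_cases hw : 0 < a ⬝ᵥ w d
      · have := hz2 hzK a hn
        rw [dotProduct_add, dotProduct_smul, smul_eq_mul]
        nlinarith
      · have hpos : 0 < ‖a‖ := norm_pos_iff.2 ha
        have h5 := hz1 (‖a‖⁻¹ • a) (by
          rw [mem_sphere_zero_iff_norm, norm_smul, norm_inv, norm_norm]
          field_simp) (by
          intro y hy
          rw [smul_dotProduct, smul_dotProduct, smul_eq_mul, smul_eq_mul]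
          exact mul_le_mul_of_nonneg_left (hn y hy) (by positivity)) (by
          rw [smul_dotProduct, smul_eq_mul]
          exact mul_nonpos_of_nonneg_of_nonpos (by positivity) (not_lt.1 hw))
        rw [smul_dotProduct, smul_eq_mul] at h5
        exact (mul_pos_iff_of_pos_left (by positivity)).1 h5)
  obtain ⟨t, ht, ht2⟩ := (key.filter_mono (nhdsWithin_le_nhds (s := Set.Ioi (0 : ℝ)))).and
    self_mem_nhdsWithin |>.exists
  exact ⟨t, fun x hx => ht x hx ht2 hx⟩

/-- a nonzero functional is not constant on a set with interior -/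
theorem noflat {K : Set (ι → ℝ)} (hi : (interior K).Nonempty) {a : ι → ℝ} {c : ℝ}
    (h : ∀ y ∈ K, a ⬝ᵥ y = c) : a = 0 := by
  obtain ⟨z, hz⟩ := hi
  have h1 : ∀ᶠ t : ℝ in 𝓝 0, z + t • a ∈ interior K := by
    have : Continuous fun t : ℝ => z + t • a := by fun_prop
    exact this.continuousAt.eventually_mem (isOpen_interior.mem_nhds (by simpa using hz))
  obtain ⟨t, ht, ht2⟩ := (h1.filter_mono (nhdsWithin_le_nhds (s := Set.Ioi (0 : ℝ)))).and
    self_mem_nhdsWithin |>.exists
  have h2 := h _ (interior_subset ht)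
  have h3 := h _ (interior_subset hz)
  rw [dotProduct_add, dotProduct_smul, smul_eq_mul, h3] at h2
  have h4 : a ⬝ᵥ a = 0 := by
    have : t * (a ⬝ᵥ a) = 0 := by linarith
    rcases mul_eq_zero.1 this with h5 | h5
    · exact absurd h5 (ne_of_gt ht2)
    · exact h5
  exact dotProduct_self_eq_zero.1 h4

theorem dot_swap (a x : ι → ℝ) (i k : ι) :
    a ⬝ᵥ (x ∘ Equiv.swap i k) = a ⬝ᵥ x + (a i - a k) * (x k - x i) := by
  by_cases hik : i = k
  · subst hik
    simp
  have : a ⬝ᵥ (x ∘ Equiv.swap i k) - a ⬝ᵥ x =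
      ∑ m, a m * (x (Equiv.swap i k m) - x m) := by
    simp only [dotProduct, Function.comp, ← Finset.sum_sub_distrib]
    refine Finset.sum_congr rfl fun m _ => by ring
  rw [Finset.sum_eq_add_of_mem i k (Finset.mem_univ _) (Finset.mem_univ _) hik (by
    intro m _ hm
    rw [Equiv.swap_apply_of_ne_of_ne hm.1 hm.2]
    ring)] at this
  rw [Equiv.swap_apply_left, Equiv.swap_apply_right] at this
  linarith

theorem compat {K : Set (ι → ℝ)} (hp : ∀ σ : Equiv.Perm ι, ∀ x ∈ K, x ∘ σ ∈ K) {x a : ι → ℝ}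
    (hx : x ∈ K) (hn : Nrm K x a) {i k : ι} (h : x k < x i) : a k ≤ a i := by
  have := hn _ (hp (Equiv.swap i k) x hx)
  rw [dot_swap] at this
  nlinarith

theorem blockavg {K : Set (ι → ℝ)} (hv : Convex ℝ K)
    (hp : ∀ σ : Equiv.Perm ι, ∀ x ∈ K, x ∘ σ ∈ K) {y : ι → ℝ} (hy : y ∈ K) (B : Finset ι) :
    (fun i => if i ∈ B then (∑ k ∈ B, y k) / B.card else y i) ∈ K := by
  induction B using Finset.induction_on with
  | empty => simpa using hy
  | insert t B ht ih =>
    set z : ι → ℝ := fun i => if i ∈ B then (∑ k ∈ B, y k) / B.card else y i with hz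
    have hcard : ((insert t B).card : ℝ) = B.card + 1 := by
      rw [Finset.card_insert_of_notMem ht]; push_cast; ring
    have hpos : (0 : ℝ) < B.card + 1 := by positivity
    have h1 := hv.sum_mem (t := insert t B) (w := fun _ => 1 / ((B.card : ℝ) + 1))
      (z := fun s => z ∘ Equiv.swap s t) (fun _ _ => by positivity) (by
        rw [Finset.sum_const, nsmul_eq_mul, hcard]; field_simp) (fun s _ => hp _ _ ih)
    convert h1 using 1
    ext i
    rw [Finset.sum_apply]
    simp only [Pi.smul_apply, Function.comp, smul_eq_mul]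
    rw [← Finset.mul_sum, hcard]
    have hsum : ∑ s ∈ B, z s = ∑ k ∈ B, y k := by
      rw [Finset.sum_congr rfl (g := fun _ => (∑ k ∈ B, y k) / B.card)
        (fun s hs => by simp [hz, hs])]
      rw [Finset.sum_const, nsmul_eq_mul]
      rcases B.eq_empty_or_nonempty with rfl | hne
      · simp
      · have : (B.card : ℝ) ≠ 0 := by exact_mod_cast hne.card_pos.ne'
        field_simp
    have hzt : z t = y t := by simp [hz, ht]
    by_cases hi : i ∈ insert t B
    · rw [if_pos hi]
      have : ∑ s ∈ insert t B, z (Equiv.swap s t i) = ∑ s ∈ insert t B, y s := by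
        rcases Finset.mem_insert.1 hi with rfl | hiB
        · simp only [Equiv.swap_apply_right]
          rw [Finset.sum_insert ht, Finset.sum_insert ht, hsum, hzt]
        · have hit : i ≠ t := fun h => ht (h ▸ hiB)
          rw [Finset.sum_insert ht, Finset.sum_insert ht, Equiv.swap_self, Equiv.refl_apply,
            ← Finset.add_sum_erase B _ hiB, Equiv.swap_apply_left, hzt,
            Finset.sum_congr rfl (g := fun s => z s) (fun s hs => by
              rw [Equiv.swap_apply_of_ne_of_ne (Finset.ne_of_mem_erase hs).symm hit]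
              simp [hz, hiB, Finset.mem_of_mem_erase hs]), ← hsum,
            ← Finset.add_sum_erase B _ hiB]
          ring
      rw [this]
      field_simp
    · rw [if_neg hi]
      have hit : i ≠ t := fun h => hi (h ▸ Finset.mem_insert_self _ _)
      have hiB : i ∉ B := fun h => hi (Finset.mem_insert_of_mem h)
      rw [Finset.sum_congr rfl (g := fun _ => y i) (fun s hs => by
        rw [Equiv.swap_apply_of_ne_of_ne (fun h : i = s => hi (by rw [h]; exact hs)) hit]
        simp [hz, hiB]), Finset.sum_const, nsmul_eq_mul, hcard]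
      field_simp

/-- the two-block direction -/
def uu (P Q : Finset ι) : ι → ℝ :=
  fun i => (if i ∈ P then (Q.card : ℝ) else 0) - (if i ∈ Q then (P.card : ℝ) else 0)

theorem dot_uu (a : ι → ℝ) (P Q : Finset ι) :
    a ⬝ᵥ uu P Q = ∑ i ∈ P, ∑ k ∈ Q, (a i - a k) := by
  simp only [dotProduct, uu, mul_sub, Finset.sum_sub_distrib, mul_ite, mul_zero,
    Finset.sum_ite_mem, Finset.univ_inter, Finset.sum_const, nsmul_eq_mul]
  rw [Finset.mul_sum]
  congr 1
  · exact Finset.sum_congr rfl fun i _ => by ring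
  · exact Finset.sum_congr rfl fun i _ => by ring

theorem uu_nonneg {a : ι → ℝ} {P Q : Finset ι} (h : ∀ i ∈ P, ∀ k ∈ Q, a k ≤ a i) :
    0 ≤ a ⬝ᵥ uu P Q := by
  rw [dot_uu]
  exact Finset.sum_nonneg fun i hi => Finset.sum_nonneg fun k hk => by linarith [h i hi k hk]

theorem uu_zero {a : ι → ℝ} {P Q : Finset ι} (h : ∀ i ∈ P, ∀ k ∈ Q, a k ≤ a i)
    (h0 : a ⬝ᵥ uu P Q = 0) : ∀ i ∈ P, ∀ k ∈ Q, a i = a k := by
  rw [dot_uu] at h0
  intro i hi k hk
  have h1 := (Finset.sum_eq_zero_iff_of_nonneg (fun i hi =>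
    Finset.sum_nonneg fun k hk => by linarith [h i hi k hk])).1 h0 i hi
  have h2 := (Finset.sum_eq_zero_iff_of_nonneg (fun k hk => by
    linarith [h i hi k hk])).1 h1 k hk
  linarith

theorem uu_local {K : Set (ι → ℝ)} (hp : ∀ σ : Equiv.Perm ι, ∀ x ∈ K, x ∘ σ ∈ K) {x : ι → ℝ}
    {P Q : Finset ι} (h : ∀ i ∈ P, ∀ k ∈ Q, x k < x i) :
    ∀ᶠ y in 𝓝 x, y ∈ K → ∀ a, Nrm K y a → 0 ≤ a ⬝ᵥ uu P Q := by
  have : ∀ᶠ y : ι → ℝ in 𝓝 x, ∀ i ∈ P, ∀ k ∈ Q, y k < y i := by
    rw [Finset.eventually_all]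
    intro i hi
    rw [Finset.eventually_all]
    intro k hk
    exact ContinuousAt.eventually_lt (continuous_apply k).continuousAt
      (continuous_apply i).continuousAt (h i hi k hk)
  filter_upwards [this] with y hy hyK a ha
  exact uu_nonneg fun i hi k hk => compat hp hyK ha (hy i hi k hk)

end Pool.Agent.H751Z.Ill
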