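import Pool.Agent.H751Z.Ill.Basic

set_option autoImplicit false
set_option linter.unusedSectionVars false

open Filter Topology

namespace Pool.Agent.H751Z.Ill

variable {ι : Type} [Fintype ι] [DecidableEq ι] [Nonempty ι]

/-- coordinate sum -/
def S (x : ι → ℝ) : ℝ := ∑ i, x i

/-- deviation from the mean -/
noncomputable def dev (x : ι → ℝ) (i : ι) : ℝ := x i - S x / Fintype.card ι

theorem card_pos' : (0 : ℝ) < Fintype.card ι := by exact_mod_cast Fintype.card_pos

theorem S_perm (x : ι → ℝ) (σ : Equiv.Perm ι) : S (x ∘ σ) = S x := Equiv.sum_comp σ x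

theorem dev_perm (x : ι → ℝ) (σ : Equiv.Perm ι) (i : ι) : dev (x ∘ σ) i = dev x (σ i) := by
  simp [dev, S_perm]

theorem sum_dev (x : ι → ℝ) : ∑ i, dev x i = 0 := by
  have := card_pos' (ι := ι)
  simp only [dev, Finset.sum_sub_distrib, Finset.sum_const, Finset.card_univ, nsmul_eq_mul]
  rw [S]
  field_simp
  ring

theorem dot_dev (a x : ι → ℝ) (β : ℝ) :
    a ⬝ᵥ x = ∑ i, (a i - β) * dev x i + S a * S x / Fintype.card ι := by
  have h := sum_dev x
  have h2 : ∑ i, (a i - β) * dev x i = ∑ i, a i * dev x i - β * ∑ i, dev x i := by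
    rw [Finset.mul_sum, ← Finset.sum_sub_distrib]
    exact Finset.sum_congr rfl fun i _ => by ring
  have h3 : ∑ i, a i * dev x i = a ⬝ᵥ x - S a * (S x / Fintype.card ι) := by
    simp only [dev, mul_sub, Finset.sum_sub_distrib, ← Finset.sum_mul]
    rfl
  rw [h2, h, h3]
  ring

/-- points strictly inside a hypersimplex spanned by a two-valued point of `K` -/
theorem delta {K : Set (ι → ℝ)} (hp : ∀ σ : Equiv.Perm ι, ∀ x ∈ K, x ∘ σ ∈ K)
    {g : ι → ℝ} (hg : g ∈ K) {lo hi : ℝ} (h2 : ∀ i, dev g i = hi ∨ dev g i = lo)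
    {x a : ι → ℝ} (hx : ∀ i, lo < dev x i ∧ dev x i < hi) (hn : Nrm K x a)
    (hs : S a * (S x - S g) ≤ 0) : ∀ i k, a i = a k := by
  obtain ⟨π, -, hπ⟩ := Finset.exists_max_image (Finset.univ : Finset (Equiv.Perm ι))
    (fun π => a ⬝ᵥ (g ∘ π)) Finset.univ_nonempty
  set g2 : ι → ℝ := g ∘ π with hg2
  have hlt : lo < hi := by
    obtain ⟨i⟩ := ‹Nonempty ι›
    linarith [hx i]
  have h3 : ∀ i, dev g2 i = hi ∨ dev g2 i = lo := fun i => by
    rw [hg2, dev_perm]; exact h2 _
  have h4 : ∀ i k, dev g2 i = hi → dev g2 k = lo → a k ≤ a i := by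
    intro i k hi' hk'
    have := hπ (π * Equiv.swap i k) (Finset.mem_univ _)
    have e : g ∘ ⇑(π * Equiv.swap i k) = g2 ∘ Equiv.swap i k := rfl
    rw [e, dot_swap] at this
    have e2 : g2 k - g2 i = lo - hi := by
      simp only [dev] at hi' hk'
      linarith
    rw [e2] at this
    nlinarith
  have hne : (Finset.univ.filter fun i => dev g2 i = hi).Nonempty := by
    by_contra hc
    have h5 : ∀ i, dev g2 i = lo := by
      intro i
      rcases h3 i with h | h
      · exact absurd ⟨i, by simpa using h⟩ hc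
      · exact h
    have h6 := sum_dev g2
    have h7 := sum_dev x
    have : ∑ i, dev g2 i < ∑ i, dev x i :=
      Finset.sum_lt_sum_of_nonempty Finset.univ_nonempty fun i _ => by rw [h5]; exact (hx i).1
    linarith
  obtain ⟨m, hm, hmin⟩ := Finset.exists_min_image _ a hne
  have hm' : dev g2 m = hi := by simpa using hm
  have h5 := hn g2 (hp π g hg)
  rw [dot_dev a g2 (a m), dot_dev a x (a m), hg2, S_perm, ← hg2] at h5
  have hc := card_pos' (ι := ι)
  have h6 : S a * S x / Fintype.card ι ≤ S a * S g / Fintype.card ι := by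
    apply div_le_div_of_nonneg_right _ hc.le
    linarith
  have h7 : ∀ i, 0 ≤ (a i - a m) * (dev g2 i - dev x i) := by
    intro i
    rcases h3 i with h | h
    · have := hmin i (by simpa using h)
      exact mul_nonneg (by linarith) (by linarith [(hx i).2])
    · have := h4 m i hm' h
      exact mul_nonneg_of_nonpos_of_nonpos (by linarith) (by linarith [(hx i).1])
  have h8 : ∑ i, (a i - a m) * (dev g2 i - dev x i) = 0 := by
    apply le_antisymm _ (Finset.sum_nonneg fun i _ => h7 i)
    simp only [mul_sub, Finset.sum_sub_distrib] at h5 ⊢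
    simp only [sub_mul, Finset.sum_sub_distrib] at h5 ⊢
    linarith
  have h9 : ∀ i, a i = a m := by
    intro i
    have := (Finset.sum_eq_zero_iff_of_nonneg (fun i _ => h7 i)).1 h8 i (Finset.mem_univ _)
    rcases mul_eq_zero.1 this with h | h
    · linarith
    · rcases h3 i with h' | h'
      · linarith [(hx i).2]
      · linarith [(hx i).1]
  intro i k
  rw [h9 i, h9 k]

/-- averaging off a block on which the point is constant -/
theorem twoval {K : Set (ι → ℝ)} (hv : Convex ℝ K)
    (hp : ∀ σ : Equiv.Perm ι, ∀ x ∈ K, x ∘ σ ∈ K) {y : ι → ℝ} (hy : y ∈ K) (G : Finset ι)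
    (hG : G.Nonempty) {θ : ℝ} (h : ∀ i, i ∉ G → dev y i = θ) :
    ∃ g ∈ K, S g = S y ∧ ∀ i, dev g i = θ ∨
      dev g i = -((Fintype.card ι - G.card) * θ / G.card) := by
  have hc : (0 : ℝ) < G.card := by exact_mod_cast hG.card_pos
  refine ⟨_, blockavg hv hp hy G, ?_, ?_⟩
  · simp only [S]
    rw [← Finset.sum_add_sum_compl G, ← Finset.sum_add_sum_compl G y]
    congr 1
    · rw [Finset.sum_congr rfl (g := fun _ => (∑ k ∈ G, y k) / G.card)
        (fun s hs => by simp [hs]), Finset.sum_const, nsmul_eq_mul]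
      field_simp
    · exact Finset.sum_congr rfl fun i hi => by simp [Finset.mem_compl.1 hi]
  · have hS : S (fun i => if i ∈ G then (∑ k ∈ G, y k) / G.card else y i) = S y := by
      simp only [S]
      rw [← Finset.sum_add_sum_compl G, ← Finset.sum_add_sum_compl G y]
      congr 1
      · rw [Finset.sum_congr rfl (g := fun _ => (∑ k ∈ G, y k) / G.card)
          (fun s hs => by simp [hs]), Finset.sum_const, nsmul_eq_mul]
        field_simp
      · exact Finset.sum_congr rfl fun i hi => by simp [Finset.mem_compl.1 hi]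
    intro i
    by_cases hi : i ∈ G
    · right
      have h1 := sum_dev y
      rw [← Finset.sum_add_sum_compl G, Finset.sum_congr rfl (s₁ := Gᶜ) (g := fun _ => θ)
        (fun i hi => h i (Finset.mem_compl.1 hi)), Finset.sum_const, nsmul_eq_mul,
        Finset.card_compl, Nat.cast_sub (Finset.card_le_univ G)] at h1
      simp only [dev, Finset.sum_sub_distrib, Finset.sum_const, nsmul_eq_mul] at h1
      simp only [dev, hS, if_pos hi]
      field_simp
      have hc2 := card_pos' (ι := ι)
      field_simp at h1 ⊢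
      linarith
    · left
      rw [← h i hi]
      simp only [dev, hS, if_neg hi]

theorem delta0 {K : Set (ι → ℝ)} (hv : Convex ℝ K)
    (hp : ∀ σ : Equiv.Perm ι, ∀ x ∈ K, x ∘ σ ∈ K) {y : ι → ℝ} (hy : y ∈ K)
    (hne : ∃ i k, y i ≠ y k) : ∃ ρ : ℝ, 0 < ρ ∧ ∀ x a : ι → ℝ, (∀ i, |dev x i| < ρ) →
      Nrm K x a → S a * (S x - S y) ≤ 0 → ∀ i k, a i = a k := by
  obtain ⟨m, -, hm⟩ := Finset.exists_max_image Finset.univ y Finset.univ_nonempty
  let G : Finset ι := Finset.univ.filter fun i => y i < y m
  have hG : G.Nonempty := by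
    obtain ⟨i, k, hik⟩ := hne
    by_contra hc
    have : ∀ j, y j = y m := fun j => by
      by_contra h
      exact hc ⟨j, by simpa [G] using lt_of_le_of_ne (hm j (Finset.mem_univ _)) h⟩
    exact hik (by rw [this i, this k])
  have h1 : ∀ i, i ∉ G → dev y i = dev y m := by
    intro i hi
    have : y i = y m := le_antisymm (hm i (Finset.mem_univ _)) (by simpa [G] using hi)
    simp [dev, this]
  obtain ⟨g, hg, hS, h2⟩ := twoval hv hp hy G hG h1
  have hpos : 0 < dev y m := by
    by_contra hc
    obtain ⟨j, hj⟩ := hG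
    have hj' : y j < y m := by simpa [G] using hj
    have : ∑ i, dev y i < ∑ _i : ι, (0 : ℝ) := by
      apply Finset.sum_lt_sum
      · intro i _
        have := hm i (Finset.mem_univ _)
        simp only [dev] at hc ⊢
        linarith
      · refine ⟨j, Finset.mem_univ _, ?_⟩
        simp only [dev] at hc ⊢
        linarith
    rw [sum_dev] at this
    simp at this
  have hc : (0 : ℝ) < G.card := by exact_mod_cast hG.card_pos
  have hc2 : (G.card : ℝ) < Fintype.card ι := by
    have : G.card < Fintype.card ι := by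
      rw [← Finset.card_univ]
      exact Finset.card_lt_card ⟨Finset.subset_univ _, fun h => by
        simpa [G] using h (Finset.mem_univ m)⟩
    exact_mod_cast this
  have hk : 0 < (Fintype.card ι - G.card) * dev y m / G.card :=
    div_pos (mul_pos (by linarith) hpos) hc
  refine ⟨min (dev y m) ((Fintype.card ι - G.card) * dev y m / G.card), lt_min hpos hk, ?_⟩
  intro x a hx hn hs
  refine delta hp hg h2 (fun i => ?_) hn (by rwa [hS])
  have := abs_lt.1 (hx i)
  constructor
  · linarith [min_le_right (dev y m) ((Fintype.card ι - G.card) * dev y m / G.card), this.1]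
  · linarith [min_le_left (dev y m) ((Fintype.card ι - G.card) * dev y m / G.card), this.2]

theorem const_sum_zero {b : ι → ℝ} (h : ∀ i k, b i = b k) (hs : S b = 0) : b = 0 := by
  ext i
  have : S b = Fintype.card ι * b i := by
    rw [S, Finset.sum_congr rfl (g := fun _ => b i) (fun k _ => h k i)]
    simp
  rw [hs] at this
  have hc := card_pos' (ι := ι)
  rcases mul_eq_zero.1 this.symm with h1 | h1
  · linarith
  · exact h1

theorem exists_nonconst {K : Set (ι → ℝ)} (hi : (interior K).Nonempty) {i k : ι} (hik : i ≠ k) :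
    ∃ y ∈ K, y i ≠ y k := by
  by_contra hc
  push Not at hc
  have := noflat hi (a := Pi.single i 1 - Pi.single k 1) (c := 0) (fun y hy => by
    rw [sub_dotProduct, single_dotProduct, single_dotProduct, hc y hy]; ring)
  have h2 := congrFun this i
  simp [hik] at h2

/-- a point with a nonzero normal of sum zero is not constant -/
theorem nonconst_of_shadow {K : Set (ι → ℝ)} (hv : Convex ℝ K) (hi : (interior K).Nonempty)
    (hp : ∀ σ : Equiv.Perm ι, ∀ x ∈ K, x ∘ σ ∈ K) {x b : ι → ℝ} (hb : b ≠ 0) (hn : Nrm K x b)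
    (hs : S b = 0) : ∃ i k, x i ≠ x k := by
  by_contra hc
  push Not at hc
  have h1 : ∃ i k, b i ≠ b k := by
    by_contra h
    push Not at h
    exact hb (const_sum_zero h hs)
  obtain ⟨i, k, hik⟩ := h1
  obtain ⟨y, hy, hy2⟩ := exists_nonconst hi (fun h : i = k => hik (by rw [h]))
  obtain ⟨ρ, hρ, h⟩ := delta0 hv hp hy ⟨i, k, hy2⟩
  refine hik (h x b (fun j => ?_) hn (by rw [hs]; simp) i k)
  have : S x = Fintype.card ι * x j := by
    rw [S, Finset.sum_congr rfl (g := fun _ => x j) (fun k _ => hc k j)]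
    simp
  have hc2 := card_pos' (ι := ι)
  have : dev x j = 0 := by
    rw [dev, this]
    field_simp
    ring
  rw [this]
  simpa using hρ

theorem bounds {K : Set (ι → ℝ)} (hc : IsCompact K) :
    ∃ D : ℝ, 0 < D ∧ ∀ y ∈ K, (∀ i, |dev y i| ≤ D) ∧ |S y| ≤ D := by
  obtain ⟨R, hR⟩ := hc.isBounded.exists_norm_le
  have hcard := card_pos' (ι := ι)
  have h1 : (1 : ℝ) ≤ Fintype.card ι := by exact_mod_cast Fintype.card_pos
  refine ⟨(Fintype.card ι + 2) * |R| + 1, by positivity, fun y hy => ?_⟩
  have h2 : ∀ i, |y i| ≤ |R| := fun i =>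
    ((norm_le_pi_norm y i).trans (hR y hy)).trans (le_abs_self R)
  have h3 : |S y| ≤ Fintype.card ι * |R| := by
    refine (Finset.abs_sum_le_sum_abs _ _).trans ?_
    refine (Finset.sum_le_sum fun i _ => h2 i).trans ?_
    simp
  have h0 := abs_nonneg R
  refine ⟨fun i => ?_, by nlinarith⟩
  have h4 : |S y / Fintype.card ι| ≤ |R| := by
    rw [abs_div, abs_of_pos hcard, div_le_iff₀ hcard]
    linarith
  have := abs_sub (y i) (S y / Fintype.card ι)
  rw [dev]
  nlinarith [h2 i]

end Pool.Agent.H751Z.Ill
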