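import Pool.Agent.H751Z.Ill.Plane

set_option autoImplicit false
set_option linter.unusedSectionVars false

open Filter Topology

namespace Pool.Agent.H751Z.Ill

variable {ι : Type} [Fintype ι] [DecidableEq ι] [Nonempty ι]

/-- the pair `(u, w)` illuminates `x` in the lexicographic sense -/
def Lx (K : Set (ι → ℝ)) (x u w : ι → ℝ) : Prop :=
  (∀ᶠ y in 𝓝 x, y ∈ K → ∀ a, Nrm K y a → 0 ≤ a ⬝ᵥ u) ∧
    ∀ a, a ≠ 0 → Nrm K x a → a ⬝ᵥ u = 0 → 0 < a ⬝ᵥ w

theorem dot_const {a : ι → ℝ} {γ : ℝ} (h : ∀ i, a i = γ) (y : ι → ℝ) : a ⬝ᵥ y = γ * S y := by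
  simp only [dotProduct, h, S, Finset.mul_sum]

theorem dot_one (a : ι → ℝ) (s : ℝ) : a ⬝ᵥ (fun _ => s) = s * S a := by
  simp only [dotProduct, S, Finset.mul_sum]
  exact Finset.sum_congr rfl fun i _ => mul_comm _ _

theorem dot_plane {a : ι → ℝ} {l : ι} {σ : ℝ} (h : ∀ i, i ≠ l → a i = σ) (y : ι → ℝ) :
    a ⬝ᵥ y = (σ + (a l - σ) / Fintype.card ι) * S y + (a l - σ) * dev y l := by
  have h1 : a ⬝ᵥ y = ∑ i, (σ * y i + if i = l then (a l - σ) * y l else 0) := by
    refine Finset.sum_congr rfl fun i _ => ?_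
    by_cases hi : i = l
    · subst hi
      simp
      ring
    · simp [hi, h i hi]
  rw [h1, Finset.sum_add_distrib, ← Finset.mul_sum, Finset.sum_ite_eq' Finset.univ l]
  simp only [Finset.mem_univ, if_true, dev, S]
  ring

/-- the constant normals at a point have one sign -/
theorem sign_pick {K : Set (ι → ℝ)} (hi : (interior K).Nonempty) (x : ι → ℝ) :
    (∀ a γ, a ≠ 0 → Nrm K x a → (∀ i, a i = γ) → 0 < γ) ∨
      ∀ a γ, a ≠ 0 → Nrm K x a → (∀ i, a i = γ) → γ < 0 := by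
  by_contra hc
  push Not at hc
  obtain ⟨⟨a, γ, ha, hn, hγ, h1⟩, b, δ, hb, hm, hδ, h2⟩ := hc
  have h3 : γ ≠ 0 := fun h => ha (funext fun i => by rw [hγ i, h]; rfl)
  have h4 : δ ≠ 0 := fun h => hb (funext fun i => by rw [hδ i, h]; rfl)
  apply ha
  refine noflat hi (c := a ⬝ᵥ x) fun y hy => ?_
  have a1 := hn y hy
  have a2 := hm y hy
  rw [dot_const hγ, dot_const hγ] at a1 ⊢
  rw [dot_const hδ, dot_const hδ] at a2
  have h5 : γ < 0 := lt_of_le_of_ne h1 h3
  have h6 : 0 < δ := lt_of_le_of_ne h2 h4.symm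
  have : S y = S x := le_antisymm (by nlinarith) (by nlinarith)
  rw [this]

theorem plane_np {K : Set (ι → ℝ)} {x a : ι → ℝ} {l : ι} {σ e : ℝ} (he : e = 1 ∨ e = -1)
    (h : ∀ i, i ≠ l → a i = σ) (hn : Nrm K x a) (hμ : e * (a l - σ) < 0) :
    NP K l e x ((σ + (a l - σ) / Fintype.card ι) / (-(e * (a l - σ)))) := by
  intro y hy
  have h1 := hn y hy
  rw [dot_plane h, dot_plane h] at h1
  set μ := a l - σ
  set γ := σ + μ / Fintype.card ι
  have hpos : 0 < -(e * μ) := by linarith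
  have hee : e * e = 1 := by rcases he with rfl | rfl <;> norm_num
  have e1 : ∀ z : ι → ℝ, γ / (-(e * μ)) * S z - e * dev z l =
      (γ * S z + μ * dev z l) / (-(e * μ)) := by
    intro z
    rw [eq_div_iff hpos.ne']
    have : γ / (-(e * μ)) * (-(e * μ)) = γ := div_mul_cancel₀ _ hpos.ne'
    linear_combination (S z) * this + μ * dev z l * hee
  rw [e1, e1]
  exact div_le_div_of_nonneg_right h1 hpos.le

theorem handle {K : Set (ι → ℝ)} (hp : ∀ σ : Equiv.Perm ι, ∀ x ∈ K, x ∘ σ ∈ K) {l : ι} {e : ℝ}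
    (he : e = 1 ∨ e = -1) {G : Finset ι} {x r : ι → ℝ} {c0 : ℝ} (hx : Pt K l e G x c0)
    {i0 : ι} (hi0 : e * x l < e * x i0) (hr : S r ≠ 0)
    (h : ∀ c, Pt K l e G x c → 0 < c * S r - e * dev r l) {a : ι → ℝ} (ha : a ≠ 0)
    (hn : Nrm K x a) {σ : ℝ} (hσ : ∀ i, i ≠ l → a i = σ) : 0 < a ⬝ᵥ r := by
  have hi0l : i0 ≠ l := by
    rintro rfl
    exact lt_irrefl _ hi0
  have hee : e * e = 1 := by rcases he with rfl | rfl <;> norm_num
  have hμ : e * (a l - σ) ≤ 0 := by
    rw [← hσ i0 hi0l]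
    rcases he with rfl | rfl
    · have := compat hp hx.1 hn (i := i0) (k := l) (by linarith)
      linarith
    · have := compat hp hx.1 hn (i := l) (k := i0) (by linarith)
      linarith
  rcases hμ.lt_or_eq with hlt | heq
  · have h1 := h _ ⟨hx.1, hx.2.1, plane_np he hσ hn hlt⟩
    rw [dot_plane hσ]
    set μ := a l - σ
    set γ := σ + μ / Fintype.card ι
    have hpos : 0 < -(e * μ) := by linarith
    have : γ / (-(e * μ)) * (-(e * μ)) = γ := div_mul_cancel₀ _ hpos.ne'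
    have h2 := mul_pos hpos h1
    have e1 : -(e * μ) * (γ / -(e * μ) * S r - e * dev r l) = γ * S r + μ * dev r l := by
      linear_combination (S r) * this + μ * dev r l * hee
    rwa [e1] at h2
  · have h0 : a l = σ := by
      rcases he with rfl | rfl <;> linarith
    have hγ : ∀ i, a i = σ := fun i => by
      by_cases hi : i = l
      · rw [hi, h0]
      · exact hσ i hi
    have h3 : σ ≠ 0 := fun h => ha (funext fun i => by rw [hγ i, h]; rfl)
    rw [dot_const hγ]
    have h4 : σ * S r ≠ 0 := mul_ne_zero h3 hr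
    by_contra hneg
    have h5 : σ * S r < 0 := lt_of_le_of_ne (not_lt.1 hneg) h4
    have h6 := h c0 hx
    set m := c0 * S r - e * dev r l
    have hτ : 0 ≤ m / (-(σ * S r)) := div_nonneg h6.le (by linarith)
    have h7 := h (c0 + m / (-(σ * S r)) * σ) ⟨hx.1, hx.2.1, fun y hy => by
      have a1 := hx.2.2 y hy
      have a2 := hn y hy
      rw [dot_const hγ, dot_const hγ] at a2
      nlinarith⟩
    have : m / (-(σ * S r)) * (-(σ * S r)) = m := div_mul_cancel₀ _ (by linarith)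
    have e1 : (c0 + m / (-(σ * S r)) * σ) * S r - e * dev r l = 0 := by
      linear_combination -this
    linarith

theorem exists_dir {l k : ι} (h : k ≠ l) (α β : ℝ) : ∃ r : ι → ℝ, S r = α ∧ dev r l = β := by
  have hS : S (Pi.single l (β + α / Fintype.card ι) +
      Pi.single k (α - (β + α / Fintype.card ι)) : ι → ℝ) = α := by
    simp [S, Finset.sum_add_distrib]
  refine ⟨_, hS, ?_⟩
  rw [dev, hS]
  simp [h.symm]

theorem Part.plane {l : ι} {P Q : Finset ι} (hP : Part l Q P) {a : ι → ℝ}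
    (h : ∀ i ∈ P, ∀ k ∈ Q, a i = a k) : ∃ σ, ∀ i, i ≠ l → a i = σ := by
  obtain ⟨p, hp⟩ := hP.2.2.2.2.2
  obtain ⟨q, hq⟩ := hP.2.2.2.2.1
  refine ⟨a p, fun i hi => ?_⟩
  rcases hP.2.2.2.1 i with h1 | h1 | h1
  · exact absurd h1 hi
  · exact (h p hp i h1).symm
  · rw [h i h1 q hq, h p hp q hq]

theorem level {K : Set (ι → ℝ)} (hc : IsCompact K) (hv : Convex ℝ K) (hi : (interior K).Nonempty)
    (hp : ∀ σ : Equiv.Perm ι, ∀ x ∈ K, x ∘ σ ∈ K) {l : ι}
    {P Q : Finset ι} (hP : Part l Q P) (s1 : Sig K 1) (s2 : Sig K (-1)) :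
    ∃ r1 r2 : ι → ℝ, ∀ x ∈ K, (∀ i ∈ P, ∀ k ∈ Q, x k < x i) →
      ((∃ c, NP K l 1 x c) → (∀ i ∈ Q, x i = x l)) →
      ((∃ c, NP K l (-1) x c) → (∀ i ∈ P, x i = x l)) →
      Lx K x (uu P Q) r1 ∨ Lx K x (uu P Q) r2 := by
  obtain ⟨t, t', h1, h2⟩ := thresh hc hv hi hp hP s1 s2
  obtain ⟨p, hpP⟩ := hP.2.2.2.2.2
  obtain ⟨q, hq⟩ := hP.2.2.2.2.1
  have hpl : p ≠ l := fun h => hP.2.1 (h ▸ hpP)
  obtain ⟨r1, a1, b1⟩ := exists_dir hpl 1 t
  obtain ⟨r2, a2, b2⟩ := exists_dir hpl (-1) (-t')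
  refine ⟨r1, r2, fun x hx hgap hR hL => ?_⟩
  have hloc := uu_local hp (x := x) hgap
  have hpl2 : ∀ a, Nrm K x a → a ⬝ᵥ uu P Q = 0 → ∃ σ, ∀ i, i ≠ l → a i = σ := fun a hn h0 =>
    hP.plane (uu_zero (fun i hi k hk => compat hp hx hn (hgap i hi k hk)) h0)
  by_cases c1 : ∃ c, NP K l 1 x c
  · have hQ := hR c1
    obtain ⟨c0, hc0⟩ := c1
    have hpt : Pt K l 1 Q x c0 := ⟨hx, hQ, hc0⟩
    have hw : 1 * x l < 1 * x p := by
      have := hgap p hpP q hq
      rw [hQ q hq] at this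
      linarith
    rcases h1 x with h | h
    · refine Or.inl ⟨hloc, fun a ha hn h0 => ?_⟩
      obtain ⟨σ, hσ⟩ := hpl2 a hn h0
      refine handle hp (Or.inl rfl) hpt hw (by rw [a1]; norm_num) (fun c hc => ?_) ha hn hσ
      rw [a1, b1]
      linarith [h c hc]
    · refine Or.inr ⟨hloc, fun a ha hn h0 => ?_⟩
      obtain ⟨σ, hσ⟩ := hpl2 a hn h0
      refine handle hp (Or.inl rfl) hpt hw (by rw [a2]; norm_num) (fun c hc => ?_) ha hn hσ
      rw [a2, b2]
      linarith [h c hc]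
  by_cases c2 : ∃ c, NP K l (-1) x c
  · have hQ := hL c2
    obtain ⟨c0, hc0⟩ := c2
    have hpt : Pt K l (-1) P x c0 := ⟨hx, hQ, hc0⟩
    have hw : -1 * x l < -1 * x q := by
      have := hgap p hpP q hq
      rw [hQ p hpP] at this
      linarith
    rcases h2 x with h | h
    · refine Or.inl ⟨hloc, fun a ha hn h0 => ?_⟩
      obtain ⟨σ, hσ⟩ := hpl2 a hn h0
      refine handle hp (Or.inr rfl) hpt hw (by rw [a1]; norm_num) (fun c hc => ?_) ha hn hσ
      rw [a1, b1]
      linarith [h c hc]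
    · refine Or.inr ⟨hloc, fun a ha hn h0 => ?_⟩
      obtain ⟨σ, hσ⟩ := hpl2 a hn h0
      refine handle hp (Or.inr rfl) hpt hw (by rw [a2]; norm_num) (fun c hc => ?_) ha hn hσ
      rw [a2, b2]
      linarith [h c hc]
  have hconst : ∀ a, Nrm K x a → a ⬝ᵥ uu P Q = 0 → ∃ σ, ∀ i, a i = σ := by
    intro a hn h0
    obtain ⟨σ, hσ⟩ := hpl2 a hn h0
    have h3 : a l = σ := by
      rcases lt_trichotomy (a l) σ with h | h | h
      · exact absurd ⟨_, plane_np (Or.inl rfl) hσ hn (by linarith)⟩ c1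
      · exact h
      · exact absurd ⟨_, plane_np (Or.inr rfl) hσ hn (by linarith)⟩ c2
    refine ⟨σ, fun i => ?_⟩
    by_cases hi : i = l
    · rw [hi, h3]
    · exact hσ i hi
  rcases sign_pick hi x with h | h
  · refine Or.inl ⟨hloc, fun a ha hn h0 => ?_⟩
    obtain ⟨σ, hσ⟩ := hconst a hn h0
    rw [dot_const hσ, a1]
    linarith [h a σ ha hn hσ]
  · refine Or.inr ⟨hloc, fun a ha hn h0 => ?_⟩
    obtain ⟨σ, hσ⟩ := hconst a hn h0
    rw [dot_const hσ, a2]
    linarith [h a σ ha hn hσ]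

/-- a full two-block direction, tilted up or down -/
theorem full_block {K : Set (ι → ℝ)} (hi : (interior K).Nonempty) {x u : ι → ℝ}
    (hloc : ∀ᶠ y in 𝓝 x, y ∈ K → ∀ a, Nrm K y a → 0 ≤ a ⬝ᵥ u)
    (h : ∀ a, Nrm K x a → a ⬝ᵥ u = 0 → ∃ σ, ∀ i, a i = σ) :
    Lx K x u (fun _ => 1) ∨ Lx K x u (fun _ => -1) := by
  have hc := card_pos' (ι := ι)
  have hS : ∀ s : ℝ, S (fun _ : ι => s) = Fintype.card ι * s := fun s => by simp [S]
  rcases sign_pick hi x with h1 | h1
  · refine Or.inl ⟨hloc, fun a ha hn h0 => ?_⟩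
    obtain ⟨σ, hσ⟩ := h a hn h0
    rw [dot_const hσ, hS]
    have := h1 a σ ha hn hσ
    positivity
  · refine Or.inr ⟨hloc, fun a ha hn h0 => ?_⟩
    obtain ⟨σ, hσ⟩ := h a hn h0
    rw [dot_const hσ, hS]
    have := h1 a σ ha hn hσ
    nlinarith

theorem const_of_compl {a : ι → ℝ} {P Q : Finset ι} (hP : P.Nonempty) (hQ : Q.Nonempty)
    (hu : ∀ i, i ∈ P ∨ i ∈ Q) (h : ∀ i ∈ P, ∀ k ∈ Q, a i = a k) : ∃ σ, ∀ i, a i = σ := by
  obtain ⟨p, hp⟩ := hP
  obtain ⟨q, hq⟩ := hQ
  refine ⟨a p, fun i => ?_⟩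
  rcases hu i with h1 | h1
  · rw [h i h1 q hq, h p hp q hq]
  · exact (h p hp i h1).symm

theorem caseA {K : Set (ι → ℝ)} (hv : Convex ℝ K) (hi : (interior K).Nonempty)
    (hp : ∀ σ : Equiv.Perm ι, ∀ x ∈ K, x ∘ σ ∈ K) {f : ℝ} (hf : f = 1 ∨ f = -1)
    (hs : ¬ Sig K f) : ∃ u w : Finset ι → ι → ℝ, ∀ x ∈ K, ∃ d, Lx K x (u d) (w d) := by
  have hne : (∅ : Finset ι) ≠ Finset.univ := Finset.univ_nonempty.ne_empty.symm
  refine ⟨fun A => uu A Aᶜ, fun A => if A = Finset.univ then fun _ => 1 else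
    if A = ∅ then fun _ => -1 else fun _ => -f, fun x hx => ?_⟩
  by_cases h1 : ∀ a, a ≠ 0 → Nrm K x a → 0 < S a
  · refine ⟨Finset.univ, uu_local hp (by simp), fun a ha hn _ => ?_⟩
    simp only [if_true]
    rw [dot_one]
    linarith [h1 a ha hn]
  by_cases h2 : ∀ a, a ≠ 0 → Nrm K x a → S a < 0
  · refine ⟨∅, uu_local hp (by simp), fun a ha hn _ => ?_⟩
    simp only [if_neg hne, if_true]
    rw [dot_one]
    linarith [h2 a ha hn]
  push Not at h1 h2
  obtain ⟨a1, ha1, hn1, hs1⟩ := h1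
  obtain ⟨a2, ha2, hn2, hs2⟩ := h2
  have hb : ∃ b, b ≠ 0 ∧ Nrm K x b ∧ S b = 0 := by
    rcases hs1.lt_or_eq with l1 | e1
    swap
    · exact ⟨a1, ha1, hn1, e1⟩
    rcases hs2.lt_or_eq with l2 | e2
    swap
    · exact ⟨a2, ha2, hn2, e2.symm⟩
    refine ⟨S a2 • a1 + (-S a1) • a2, fun h0 => ?_, fun y hy => ?_, ?_⟩
    · apply ha1
      refine noflat hi (c := a1 ⬝ᵥ x) fun y hy => ?_
      have b1 := hn1 y hy
      have b2 := hn2 y hy
      have c1 := congrArg (· ⬝ᵥ y) h0
      have c2 := congrArg (· ⬝ᵥ x) h0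
      simp only [add_dotProduct, smul_dotProduct, smul_eq_mul, zero_dotProduct] at c1 c2
      nlinarith
    · have b1 := hn1 y hy
      have b2 := hn2 y hy
      simp only [add_dotProduct, smul_dotProduct, smul_eq_mul]
      nlinarith
    · have : S (S a2 • a1 + (-S a1) • a2) = S a2 * S a1 + (-S a1) * S a2 := by
        simp only [S, Pi.add_apply, Pi.smul_apply, smul_eq_mul, Finset.sum_add_distrib,
          ← Finset.mul_sum]
      rw [this]
      ring
  obtain ⟨b, hb0, hbn, hbs⟩ := hb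
  obtain ⟨i0, k0, hik⟩ := nonconst_of_shadow hv hi hp hb0 hbn hbs
  obtain ⟨m, -, hm⟩ := Finset.exists_max_image Finset.univ x Finset.univ_nonempty
  let A : Finset ι := Finset.univ.filter fun i => x i = x m
  have hA1 : A.Nonempty := ⟨m, by simp [A]⟩
  have hA2 : Aᶜ.Nonempty := by
    by_contra hcon
    have : ∀ j, x j = x m := fun j => by
      by_contra h
      exact hcon ⟨j, by simpa [A] using h⟩
    exact hik (by rw [this i0, this k0])
  have hgap : ∀ i ∈ A, ∀ k ∈ Aᶜ, x k < x i := by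
    intro i hi k hk
    have e1 : x i = x m := by simpa [A] using hi
    have e2 : x k ≠ x m := by simpa [A] using hk
    rw [e1]
    exact lt_of_le_of_ne (hm k (Finset.mem_univ _)) e2
  refine ⟨A, uu_local hp hgap, fun a ha hn h0 => ?_⟩
  have n1 : A ≠ Finset.univ := by
    intro h
    rw [h] at hA2
    simp at hA2
  simp only [if_neg n1, if_neg hA1.ne_empty]
  obtain ⟨σ, hσ⟩ := const_of_compl hA1 hA2 (fun i => by by_cases h : i ∈ A <;> simp [h])
    (uu_zero (fun i hi k hk => compat hp hx hn (hgap i hi k hk)) h0)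
  have h3 : σ ≠ 0 := fun h => ha (funext fun i => by rw [hσ i, h]; rfl)
  have hS : S (fun _ : ι => -f) = Fintype.card ι * (-f) := by simp [S]
  have hc := card_pos' (ι := ι)
  rw [dot_const hσ, hS]
  have h4 : σ * f < 0 := by
    by_contra hcon
    apply hs
    refine ⟨x, hx, fun y hy => ?_, b, hb0, hbn, hbs⟩
    have := hn y hy
    rw [dot_const hσ, dot_const hσ] at this
    rcases hf with rfl | rfl
    · have : 0 < σ := lt_of_le_of_ne (by linarith) h3.symm
      nlinarith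
    · have : σ < 0 := lt_of_le_of_ne (by linarith) h3
      nlinarith
  nlinarith

theorem caseB {K : Set (ι → ℝ)} (hc : IsCompact K) (hv : Convex ℝ K)
    (hi : (interior K).Nonempty) (hp : ∀ σ : Equiv.Perm ι, ∀ x ∈ K, x ∘ σ ∈ K)
    (s1 : Sig K 1) (s2 : Sig K (-1)) :
    ∃ u w : Finset ι → ι → ℝ, ∀ x ∈ K, ∃ d, Lx K x (u d) (w d) := by
  obtain ⟨l⟩ := ‹Nonempty ι›
  let co : Finset ι → Finset ι := fun P => (insert l P)ᶜ
  have hlev : ∀ P : Finset ι, ∃ u r1 r2 : ι → ℝ,
      (P = ∅ → ∀ x ∈ K, ((∀ i, i ≠ l → x i < x l) ∨ ∀ i k, x i = x k) →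
        Lx K x u r1 ∨ Lx K x u r2) ∧
      (P = Finset.univ.erase l → ∀ x ∈ K, (∀ i, i ≠ l → x l < x i) →
        Lx K x u r1 ∨ Lx K x u r2) ∧
      (Part l (co P) P → ∀ x ∈ K, (∀ i ∈ P, ∀ k ∈ co P, x k < x i) →
        ((∃ c, NP K l 1 x c) → (∀ i ∈ co P, x i = x l)) →
        ((∃ c, NP K l (-1) x c) → (∀ i ∈ P, x i = x l)) → Lx K x u r1 ∨ Lx K x u r2) := by
    obtain ⟨z1, hz1, hz1f, b1, hb1, hn1, hs1⟩ := id s1
    obtain ⟨z2, hz2, hz2f, b2, hb2, hn2, hs2⟩ := id s2
    have nc1 := nonconst_of_shadow hv hi hp hb1 hn1 hs1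
    have nc2 := nonconst_of_shadow hv hi hp hb2 hn2 hs2
    have hE : (Finset.univ.erase l).Nonempty := by
      obtain ⟨i, k, hik⟩ := nc1
      by_cases h : i = l
      · exact ⟨k, by simpa using fun h2 : k = l => hik (by rw [h, h2])⟩
      · exact ⟨i, by simpa using h⟩
    intro P
    by_cases hP0 : P = ∅
    · subst hP0
      refine ⟨uu {l} (Finset.univ.erase l), fun _ => 1, fun _ => -1, fun _ x hx h => ?_,
        fun h => absurd h.symm hE.ne_empty, fun h => absurd h.2.2.2.2.2 (by simp)⟩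
      rcases h with h | h
      · have hgap : ∀ i ∈ ({l} : Finset ι), ∀ k ∈ Finset.univ.erase l, x k < x i := by
          intro i hi k hk
          rw [Finset.mem_singleton.1 hi]
          exact h k (Finset.ne_of_mem_erase hk)
        exact full_block hi (uu_local hp hgap) fun a hn h0 =>
          const_of_compl (Finset.singleton_nonempty l) hE
            (fun i => by by_cases h : i = l <;> simp [h])
            (uu_zero (fun i hi k hk => compat hp hx hn (hgap i hi k hk)) h0)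
      · obtain ⟨ρ1, hρ1, g1⟩ := delta0 hv hp hz1 nc1
        obtain ⟨ρ2, hρ2, g2⟩ := delta0 hv hp hz2 nc2
        have key : ∀ y ∈ K, (∀ i, |dev y i| < min ρ1 ρ2) → ∀ a, Nrm K y a →
            ∀ i k, a i = a k := by
          intro y hy hd a hn
          by_cases hsa : 0 ≤ S a
          · exact g1 y a (fun i => (hd i).trans_le (min_le_left _ _)) hn
              (mul_nonpos_of_nonneg_of_nonpos hsa (by linarith [hz1f y hy]))
          · exact g2 y a (fun i => (hd i).trans_le (min_le_right _ _)) hn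
              (mul_nonpos_of_nonpos_of_nonneg (by linarith) (by linarith [hz2f y hy]))
        have hd0 : ∀ j, dev x j = 0 := by
          intro j
          have : S x = Fintype.card ι * x j := by
            rw [S, Finset.sum_congr rfl (g := fun _ => x j) (fun k _ => h k j)]
            simp
          have hc2 := card_pos' (ι := ι)
          rw [dev, this]
          field_simp
          ring
        have hev : ∀ᶠ y : ι → ℝ in 𝓝 x, ∀ i, |dev y i| < min ρ1 ρ2 := by
          rw [eventually_all]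
          intro i
          refine ContinuousAt.eventually_lt (Continuous.continuousAt ?_) continuousAt_const
            (by rw [hd0]; simpa using ⟨hρ1, hρ2⟩)
          unfold dev S
          fun_prop
        refine full_block hi ?_ fun a hn _ => ⟨a l, fun i => key x hx hev.self_of_nhds a hn i l⟩
        filter_upwards [hev] with y hy hyK a hn
        exact uu_nonneg fun i _ k _ => (key y hyK hy a hn k i).le
    by_cases hP1 : P = Finset.univ.erase l
    · subst hP1
      refine ⟨uu (Finset.univ.erase l) {l}, fun _ => 1, fun _ => -1, fun h => absurd h hP0,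
        fun _ x hx h => ?_, fun h => absurd h.2.2.2.2.1 (by simp [co])⟩
      have hgap : ∀ i ∈ Finset.univ.erase l, ∀ k ∈ ({l} : Finset ι), x k < x i := by
        intro i hi k hk
        rw [Finset.mem_singleton.1 hk]
        exact h i (Finset.ne_of_mem_erase hi)
      exact full_block hi (uu_local hp hgap) fun a hn h0 =>
        const_of_compl hE (Finset.singleton_nonempty l)
          (fun i => by by_cases h : i = l <;> simp [h])
          (uu_zero (fun i hi k hk => compat hp hx hn (hgap i hi k hk)) h0)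
    by_cases hP2 : Part l (co P) P
    · obtain ⟨r1, r2, h⟩ := level hc hv hi hp hP2 s1 s2
      exact ⟨_, r1, r2, fun h => absurd h hP0, fun h => absurd h hP1, fun _ => h⟩
    · exact ⟨0, 0, 0, fun h => absurd h hP0, fun h => absurd h hP1, fun h => absurd h hP2⟩
  choose u r1 r2 k1 k2 k3 using hlev
  refine ⟨fun A => u (A.erase l), fun A => if l ∈ A then r1 (A.erase l) else r2 (A.erase l),
    fun x hx => ?_⟩
  have fin : ∀ P : Finset ι, l ∉ P → (Lx K x (u P) (r1 P) ∨ Lx K x (u P) (r2 P)) →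
      ∃ A : Finset ι, Lx K x (u (A.erase l))
        (if l ∈ A then r1 (A.erase l) else r2 (A.erase l)) := by
    intro P hl h
    rcases h with h | h
    · exact ⟨insert l P, by simpa [Finset.erase_insert hl] using h⟩
    · exact ⟨P, by simpa [Finset.erase_eq_of_notMem hl, hl] using h⟩
  by_cases c0 : (∀ i, i ≠ l → x i < x l) ∨ ∀ i k, x i = x k
  · exact fin ∅ (by simp) (k1 _ rfl x hx c0)
  by_cases c1 : ∀ i, i ≠ l → x l < x i
  · exact fin _ (by simp) (k2 _ rfl x hx c1)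
  push Not at c0 c1
  obtain ⟨⟨i1, hi1, hi1x⟩, i2, k2', hne⟩ := c0
  obtain ⟨i3, hi3, hi3x⟩ := c1
  have part : ∀ P : Finset ι, l ∉ P → P.Nonempty → (co P).Nonempty → Part l (co P) P := by
    intro P h1 h2 h3
    refine ⟨by simp [co], h1, ?_, fun i => ?_, h3, h2⟩
    · rw [Finset.disjoint_left]
      intro i hi hi2
      simp [co, hi2] at hi
    · by_cases h : i = l
      · exact Or.inl h
      · by_cases h' : i ∈ P <;> simp [co, h, h']
  have npmin : ∀ e : ℝ, (e = 1 ∨ e = -1) → ∀ c, NP K l e x c → ∀ i, e * x l ≤ e * x i := by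
    intro e _ c h i
    have := h.all hp hx i
    simp only [dev] at this
    linarith
  by_cases hmax : ∃ i, x l < x i
  · let P : Finset ι := Finset.univ.filter fun i => x l < x i
    have hl : l ∉ P := by simp [P]
    have hco : ∀ k ∈ co P, x k ≤ x l := fun k hk => by
      have : k ≠ l ∧ x k ≤ x l := by simpa [co, P] using hk
      exact this.2
    obtain ⟨i4, hi4⟩ := hmax
    refine fin P hl (k3 P (part P hl ⟨i4, by simpa [P] using hi4⟩
      ⟨i3, by simpa [co, P] using ⟨hi3, hi3x⟩⟩) x hx (fun i hi k hk => ?_) ?_ ?_)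
    · have : x l < x i := by simpa [P] using hi
      linarith [hco k hk]
    · rintro ⟨c, h⟩ i hi
      have := npmin 1 (Or.inl rfl) c h i
      linarith [hco i hi]
    · rintro ⟨c, h⟩
      have := npmin (-1) (Or.inr rfl) c h i4
      linarith
  · push Not at hmax
    let P : Finset ι := Finset.univ.filter fun i => i ≠ l ∧ x i = x l
    have hl : l ∉ P := by simp [P]
    have hlow : ∃ k, x k < x l := by
      by_contra hcon
      push Not at hcon
      exact hne (by rw [le_antisymm (hmax i2) (hcon i2), le_antisymm (hmax k2') (hcon k2')])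
    obtain ⟨k4, hk4⟩ := hlow
    have hco : ∀ k ∈ co P, x k < x l := fun k hk => by
      have : k ≠ l ∧ (k ≠ l → x k ≠ x l) := by simpa [co, P] using hk
      exact lt_of_le_of_ne (hmax k) (this.2 this.1)
    have hPm : ∀ i ∈ P, x i = x l := fun i hi => by
      have : i ≠ l ∧ x i = x l := by simpa [P] using hi
      exact this.2
    refine fin P hl (k3 P (part P hl
      ⟨i1, by simpa [P] using ⟨hi1, le_antisymm (hmax i1) hi1x⟩⟩ ⟨k4, ?_⟩) x hx
      (fun i hi k hk => ?_) ?_ fun _ => hPm)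
    · have : k4 ≠ l := by
        rintro rfl
        exact lt_irrefl _ hk4
      simpa [co, P, this] using hk4.ne
    · rw [hPm i hi]
      exact hco k hk
    · rintro ⟨c, h⟩
      have := npmin 1 (Or.inl rfl) c h k4
      linarith

theorem core {K : Set (ι → ℝ)} (hc : IsCompact K) (hv : Convex ℝ K)
    (hi : (interior K).Nonempty) (hp : ∀ σ : Equiv.Perm ι, ∀ x ∈ K, x ∘ σ ∈ K) :
    ∃ v : Finset ι → ι → ℝ, ∀ x ∈ K, ∃ d, x - v d ∈ interior K := by
  have h1 : ∃ u w : Finset ι → ι → ℝ, ∀ x ∈ K, ∃ d, Lx K x (u d) (w d) := by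
    by_cases s1 : Sig K 1
    · by_cases s2 : Sig K (-1)
      · exact caseB hc hv hi hp s1 s2
      · exact caseA hv hi hp (Or.inr rfl) s2
    · exact caseA hv hi hp (Or.inl rfl) s1
  obtain ⟨u, w, h⟩ := h1
  obtain ⟨e, he⟩ := lex hc u w h
  obtain ⟨t, ht⟩ := cover hc hv (fun d => u d + e • w d) fun x hx => by
    obtain ⟨d, hd⟩ := he x hx
    exact ⟨d, ill hv hi hd⟩
  exact ⟨fun d => t • (u d + e • w d), ht⟩

theorem main (d : ℕ) (hd : 1 ≤ d) (K : Set (EuclideanSpace ℝ (Fin d)))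
    (hK : Convex ℝ K) (hKc : IsCompact K) (hKi : (interior K).Nonempty)
    (o : EuclideanSpace ℝ (Fin d)) (b : Module.Basis (Fin d) ℝ (EuclideanSpace ℝ (Fin d)))
    (hs : ∀ (σ : Equiv.Perm (Fin d)) (t : Fin d → ℝ),
      o + ∑ i, t i • b i ∈ K → o + ∑ i, t (σ i) • b i ∈ K) :
    ∃ T : Finset (EuclideanSpace ℝ (Fin d)), T.card ≤ 2 ^ d ∧
      K ⊆ ⋃ t ∈ T, (fun x => t + x) '' interior K := by
  classical
  haveI : Nonempty (Fin d) := ⟨⟨0, hd⟩⟩
  let L : (Fin d → ℝ) ≃L[ℝ] EuclideanSpace ℝ (Fin d) :=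
    b.equivFun.symm.toContinuousLinearEquiv
  have hL : ∀ t, L t = ∑ i, t i • b i := fun t => b.equivFun_symm_apply t
  let Φ : (Fin d → ℝ) ≃ₜ EuclideanSpace ℝ (Fin d) := L.toHomeomorph.trans (Homeomorph.addLeft o)
  have hΦ : ∀ t, Φ t = o + L t := fun t => rfl
  have hint : interior (Φ ⁻¹' K) = Φ ⁻¹' interior K := (Φ.preimage_interior K).symm
  obtain ⟨v, hv⟩ := core (K := Φ ⁻¹' K) (Φ.isCompact_preimage.2 hKc) (by
      intro x hx y hy p q hp hq hpq
      have := hK hx hy hp hq hpq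
      rw [Set.mem_preimage, hΦ, map_add, map_smul, map_smul]
      rw [hΦ, hΦ] at this
      convert this using 1
      rw [smul_add, smul_add]
      have : o = p • o + q • o := by rw [← add_smul, hpq, one_smul]
      conv_lhs => rw [this]
      abel) (by
      rw [hint]
      exact hKi.preimage Φ.surjective) (by
      intro σ x hx
      rw [Set.mem_preimage, hΦ, hL] at hx ⊢
      exact hs σ x hx)
  refine ⟨Finset.univ.image fun A => L (v A), ?_, fun y hy => ?_⟩
  · refine Finset.card_image_le.trans ?_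
    simp
  · obtain ⟨x, rfl⟩ := Φ.surjective y
    obtain ⟨A, hA⟩ := hv x hy
    rw [hint, Set.mem_preimage] at hA
    simp only [Set.mem_iUnion]
    refine ⟨L (v A), Finset.mem_image_of_mem _ (Finset.mem_univ _), _, hA, ?_⟩
    simp only [hΦ, map_sub]
    abel

end Pool.Agent.H751Z.Ill
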