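import Pool.Agent.H751Z.Ill.Geom

set_option autoImplicit false
set_option linter.unusedSectionVars false

open Filter Topology

namespace Pool.Agent.H751Z.Ill

variable {ι : Type} [Fintype ι] [DecidableEq ι] [Nonempty ι]

/-- the functional `c * S - e * dev l` is maximal at `x` -/
def NP (K : Set (ι → ℝ)) (l : ι) (e : ℝ) (x : ι → ℝ) (c : ℝ) : Prop :=
  ∀ y ∈ K, c * S y - e * dev y l ≤ c * S x - e * dev x l

/-- such a point which is constant on `G` and `l` -/
def Pt (K : Set (ι → ℝ)) (l : ι) (e : ℝ) (G : Finset ι) (x : ι → ℝ) (c : ℝ) : Prop :=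
  x ∈ K ∧ (∀ i ∈ G, x i = x l) ∧ NP K l e x c

/-- the extreme slice in direction `f` meets the shadow boundary -/
def Sig (K : Set (ι → ℝ)) (f : ℝ) : Prop :=
  ∃ z ∈ K, (∀ y ∈ K, f * S y ≤ f * S z) ∧ ∃ b, b ≠ 0 ∧ Nrm K z b ∧ S b = 0

/-- `G`, `H` and `l` partition the index set -/
def Part (l : ι) (G H : Finset ι) : Prop :=
  l ∉ G ∧ l ∉ H ∧ Disjoint G H ∧ (∀ i, i = l ∨ i ∈ G ∨ i ∈ H) ∧ G.Nonempty ∧ H.Nonempty

theorem Part.symm {l : ι} {G H : Finset ι} (h : Part l G H) : Part l H G :=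
  ⟨h.2.1, h.1, h.2.2.1.symm, fun i => by rcases h.2.2.2.1 i with h | h | h <;> simp [h],
    h.2.2.2.2.2, h.2.2.2.2.1⟩

theorem Part.sum {l : ι} {G H : Finset ι} (h : Part l G H) (φ : ι → ℝ) :
    ∑ i, φ i = φ l + ∑ i ∈ G, φ i + ∑ i ∈ H, φ i := by
  have : (Finset.univ : Finset ι) = insert l (G ∪ H) := by
    ext i
    simpa using h.2.2.2.1 i
  rw [this, Finset.sum_insert (by simp [h.1, h.2.1]), Finset.sum_union h.2.2.1]
  ring

theorem Part.card {l : ι} {G H : Finset ι} (h : Part l G H) :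
    (Fintype.card ι : ℝ) = 1 + G.card + H.card := by
  simpa using h.sum fun _ => 1

theorem NP.all {K : Set (ι → ℝ)} (hp : ∀ σ : Equiv.Perm ι, ∀ x ∈ K, x ∘ σ ∈ K) {l : ι} {e c : ℝ}
    {x : ι → ℝ} (h : NP K l e x c) {y : ι → ℝ} (hy : y ∈ K) (i : ι) :
    c * S y - e * dev y i ≤ c * S x - e * dev x l := by
  have := h _ (hp (Equiv.swap i l) y hy)
  rwa [S_perm, dev_perm, Equiv.swap_apply_right] at this

theorem Pt.sum {K : Set (ι → ℝ)} {l : ι} {e c : ℝ} {G H : Finset ι} (hP : Part l G H)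
    {x : ι → ℝ} (h : Pt K l e G x c) (μ : ℝ) :
    (G.card + 1) * (μ * dev x l) + ∑ i ∈ H, μ * dev x i = 0 := by
  have h1 := hP.sum fun i => μ * dev x i
  rw [← Finset.mul_sum, sum_dev, Finset.sum_congr rfl (s₁ := G) (g := fun _ => μ * dev x l)
    (fun i hi => by simp only [dev, h.2.1 i hi]), Finset.sum_const, nsmul_eq_mul] at h1
  linarith

theorem exists_pos_dev {y : ι → ℝ} (hne : ∃ i k, y i ≠ y k) {e : ℝ} (he : e = 1 ∨ e = -1) :
    ∃ i, 0 < e * dev y i := by
  by_contra hc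
  push Not at hc
  have h1 : ∑ i, e * dev y i = 0 := by rw [← Finset.mul_sum, sum_dev, mul_zero]
  have h2 := (Finset.sum_eq_zero_iff_of_nonpos (fun i _ => hc i)).1 h1
  obtain ⟨i, k, hik⟩ := hne
  have h3 := h2 i (Finset.mem_univ _)
  have h4 := h2 k (Finset.mem_univ _)
  apply hik
  simp only [dev] at h3 h4
  rcases he with rfl | rfl <;> linarith

theorem lemX {K : Set (ι → ℝ)} (hc : IsCompact K) (hv : Convex ℝ K) (hi : (interior K).Nonempty)
    (hp : ∀ σ : Equiv.Perm ι, ∀ x ∈ K, x ∘ σ ∈ K) {l : ι} {e f : ℝ} (he : e = 1 ∨ e = -1)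
    (hf : f = 1 ∨ f = -1) {G H : Finset ι} (hP : Part l G H) (hs : Sig K f)
    (hu : ∀ C : ℝ, ∃ x c, Pt K l e G x c ∧ C ≤ f * c) {x' : ι → ℝ} {c' : ℝ}
    (h' : Pt K l (-e) H x' c') : f * c' ≤ 0 := by
  by_contra hpos
  push Not at hpos
  obtain ⟨z, hz, hzf, b, hb, hbn, hbs⟩ := hs
  obtain ⟨D, hD, hDb⟩ := bounds hc
  have hff : f * f = 1 := by rcases hf with rfl | rfl <;> norm_num
  have hea : ∀ t : ℝ, |e * t| = |t| := by
    intro t
    rcases he with rfl | rfl <;> simp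
  set η := e * dev x' l with hη
  have H1 : ∀ y ∈ K, ∀ i, e * dev y i ≤ η - (f * c') * (f * S y - f * S x') := by
    intro y hy i
    have := h'.2.2.all hp hy i
    have e1 : (f * c') * (f * S y - f * S x') = (f * f) * (c' * S y - c' * S x') := by ring
    rw [e1, hff]
    linarith
  have hx'z := hzf x' h'.1
  obtain ⟨i0, hi0⟩ := exists_pos_dev (nonconst_of_shadow hv hi hp hb hbn hbs) he
  have hη0 : 0 < η := by
    have := H1 z hz i0
    nlinarith
  have hG : (0 : ℝ) < G.card := by exact_mod_cast hP.2.2.2.2.1.card_pos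
  have hH : (0 : ℝ) < H.card := by exact_mod_cast hP.2.2.2.2.2.card_pos
  -- a far point on the other side
  obtain ⟨x, c, hx, hC⟩ := hu (H.card * (f * c') * (2 * D) / η + 1)
  have hq : 0 ≤ H.card * (f * c') * (2 * D) / η := by positivity
  have hfc : 0 < f * c := by linarith
  have H2 : ∀ y ∈ K, ∀ i, (f * c) * (f * S y - f * S x) ≤ e * dev y i - e * dev x l := by
    intro y hy i
    have := hx.2.2.all hp hy i
    have e1 : (f * c) * (f * S y - f * S x) = (f * f) * (c * S y - c * S x) := by ring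
    rw [e1, hff]
    linarith
  have hxz := hzf x hx.1
  have hgap : (f * c) * (f * S z - f * S x) ≤ 2 * D := by
    have h1 := H2 z hz l
    have h2 := (hDb z hz).1 l
    have h3 := (hDb x hx.1).1 l
    rw [← hea] at h2 h3
    linarith [abs_le.1 h2, abs_le.1 h3]
  have hsmall : H.card * ((f * c') * (f * S z - f * S x)) < η := by
    have h1 : H.card * (f * c') * (2 * D) / η * η = H.card * (f * c') * (2 * D) := by field_simp
    have h2 : H.card * (f * c') * (2 * D) < (f * c) * η := by nlinarith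
    have h3 : H.card * (f * c') * ((f * c) * (f * S z - f * S x)) ≤
        H.card * (f * c') * (2 * D) := mul_le_mul_of_nonneg_left hgap (by positivity)
    have h4 : (f * c) * (H.card * ((f * c') * (f * S z - f * S x))) < (f * c) * η := by
      nlinarith
    exact lt_of_mul_lt_mul_left h4 hfc.le
  have hX : (G.card + 1) * (-(e * dev x l)) < (H.card + 1) * η := by
    have h1 := hx.sum hP e
    have h2 : ∑ i ∈ H, e * dev x i ≤ ∑ _i ∈ H, (η + (f * c') * (f * S z - f * S x)) :=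
      Finset.sum_le_sum fun i _ => by
        have := H1 x hx.1 i
        nlinarith
    rw [Finset.sum_const, nsmul_eq_mul] at h2
    nlinarith
  have hlow : ∀ y ∈ K, f * S y = f * S z → ∀ i, -((H.card + 1) * η / G.card) < e * dev y i := by
    intro y hy hyz i
    have h1 := H2 y hy i
    rw [hyz] at h1
    have h2 : 0 ≤ (f * c) * (f * S z - f * S x) := mul_nonneg hfc.le (by linarith)
    rw [neg_lt, lt_div_iff₀ hG]
    by_cases h3 : 0 ≤ e * dev y i
    · nlinarith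
    · nlinarith
  rcases hx'z.lt_or_eq with hlt | heq
  · obtain ⟨g, hg, hgS, hg2⟩ := twoval hv hp h'.1 G hP.2.2.2.2.1 (θ := dev x' l) (by
      intro i hiG
      rcases hP.2.2.2.1 i with h | h | h
      · rw [h]
      · exact absurd h hiG
      · simp only [dev, h'.2.1 i h])
    have hcard : (Fintype.card ι : ℝ) - G.card = H.card + 1 := by rw [hP.card]; ring
    rw [hcard] at hg2
    have hup : ∀ i, e * dev z i < η := by
      intro i
      have := H1 z hz i
      nlinarith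
    have hlo := hlow z hz rfl
    apply hb
    apply const_sum_zero _ hbs
    rcases he with rfl | rfl
    · refine delta hp hg hg2 (fun i => ⟨?_, ?_⟩) hbn (by rw [hbs]; simp)
      · simpa [hη] using hlo i
      · simpa [hη] using hup i
    · refine delta hp hg (fun i => (hg2 i).symm) (fun i => ⟨?_, ?_⟩) hbn (by rw [hbs]; simp)
      · have := hup i
        rw [hη] at this
        linarith
      · have := hlo i
        rw [hη] at this
        have e1 : ((H.card : ℝ) + 1) * (-1 * dev x' l) / G.card =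
          -((H.card + 1) * dev x' l / G.card) := by ring
        rw [e1] at this
        linarith
  · have h1 := h'.sum hP.symm e
    have h2 : ∑ _i ∈ G, -((H.card + 1) * η / G.card) < ∑ i ∈ G, e * dev x' i :=
      Finset.sum_lt_sum_of_nonempty hP.2.2.2.2.1 fun i _ => hlow x' h'.1 heq i
    rw [Finset.sum_const, nsmul_eq_mul] at h2
    have e1 : (G.card : ℝ) * -((H.card + 1) * η / G.card) = -((H.card + 1) * η) := by
      field_simp
    rw [e1] at h2
    linarith

theorem lemY {K : Set (ι → ℝ)} (hc : IsCompact K) (hi : (interior K).Nonempty)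
    (hp : ∀ σ : Equiv.Perm ι, ∀ x ∈ K, x ∘ σ ∈ K) {l : ι} {e : ℝ} (he : e = 1 ∨ e = -1)
    {G H : Finset ι} (hP : Part l G H) {x' : ι → ℝ} (h' : Pt K l (-e) H x' 0) :
    ∃ δ : ℝ, 0 < δ ∧ ∀ x c, Pt K l e G x c → δ ≤ |c| := by
  obtain ⟨D, hD, hDb⟩ := bounds hc
  set η := e * dev x' l with hη
  have H1 : ∀ y ∈ K, ∀ i, e * dev y i ≤ η := by
    intro y hy i
    have := h'.2.2.all hp hy i
    linarith
  obtain ⟨k, hk⟩ := hP.2.2.2.2.1
  obtain ⟨y, hy, hy2⟩ := exists_nonconst hi (fun h : k = l => hP.1 (h ▸ hk))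
  obtain ⟨i0, hi0⟩ := exists_pos_dev ⟨k, l, hy2⟩ he
  have hη0 : 0 < η := hi0.trans_le (H1 y hy i0)
  have hG : (0 : ℝ) < G.card := by exact_mod_cast hP.2.2.2.2.1.card_pos
  have hH : (0 : ℝ) < H.card := by exact_mod_cast hP.2.2.2.2.2.card_pos
  refine ⟨η / (G.card * (2 * D)), by positivity, fun x c hx => ?_⟩
  have h1 := hx.sum hP e
  have h2 : ∑ i ∈ H, e * dev x i ≤ ∑ _i ∈ H, η := Finset.sum_le_sum fun i _ => H1 x hx.1 i
  rw [Finset.sum_const, nsmul_eq_mul] at h2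
  have h3 : G.card * (-(e * dev x l)) ≤ H.card * η := by
    by_cases h : 0 ≤ e * dev x l
    · nlinarith
    · nlinarith
  have h4 := h'.sum hP.symm e
  have h5 : ∑ _i ∈ G, (c * S x' - (c * S x - e * dev x l)) ≤ ∑ i ∈ G, e * dev x' i :=
    Finset.sum_le_sum fun i _ => by linarith [hx.2.2.all hp h'.1 i]
  rw [Finset.sum_const, nsmul_eq_mul] at h5
  have h6 : η ≤ G.card * (c * (S x - S x')) := by nlinarith
  have h7 : c * (S x - S x') ≤ |c| * (2 * D) := by
    refine (le_abs_self _).trans ?_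
    rw [abs_mul]
    refine mul_le_mul_of_nonneg_left ?_ (abs_nonneg _)
    linarith [abs_sub (S x) (S x'), (hDb x hx.1).2, (hDb x' h'.1).2]
  rw [div_le_iff₀ (by positivity)]
  nlinarith

theorem lemT {K : Set (ι → ℝ)} (hc : IsCompact K) (hi : (interior K).Nonempty)
    {l : ι} {e : ℝ} (he : e = 1 ∨ e = -1) :
    ∃ C : ℝ, ∀ x ∈ K, ∀ c1 c2, NP K l e x c1 → NP K l e x c2 → -C < c1 ∨ c2 < C := by
  obtain ⟨D, hD, hDb⟩ := bounds hc
  have h1 : ∃ y ∈ K, ∃ z ∈ K, S y < S z := by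
    by_contra hcon
    push Not at hcon
    obtain ⟨z, hz⟩ := hi
    have hz' := interior_subset hz
    have := noflat ⟨z, hz⟩ (a := fun _ => 1) (c := S z) (fun y hy => by
      simp only [dotProduct, one_mul]
      exact le_antisymm (hcon z hz' y hy) (hcon y hy z hz'))
    obtain ⟨i⟩ := ‹Nonempty ι›
    simpa using congrFun this i
  obtain ⟨y, hy, z, hz, hyz⟩ := h1
  have hea : ∀ t : ℝ, |e * t| = |t| := by
    intro t
    rcases he with rfl | rfl <;> simp
  have hq : 0 < 4 * D / (S z - S y) := div_pos (by linarith) (by linarith)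
  have hq2 : 4 * D / (S z - S y) * (S z - S y) = 4 * D := by
    have : S z - S y ≠ 0 := by linarith
    field_simp
  refine ⟨4 * D / (S z - S y) + 1, fun x hx c1 c2 h1 h2 => ?_⟩
  by_contra hcon
  push Not at hcon
  have a1 := h1 y hy
  have a2 := h2 z hz
  have b1 := (hDb x hx).1 l
  have b2 := (hDb y hy).1 l
  have b3 := (hDb z hz).1 l
  rw [← hea] at b1 b2 b3
  have b1' := abs_le.1 b1
  have b2' := abs_le.1 b2
  have b3' := abs_le.1 b3
  set C := 4 * D / (S z - S y) + 1 with hC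
  have t1 : C * (S x - S y) ≤ 2 * D := by
    by_cases h : 0 ≤ S x - S y
    · nlinarith
    · nlinarith
  have t2 : C * (S z - S x) ≤ 2 * D := by
    by_cases h : 0 ≤ S z - S x
    · nlinarith
    · nlinarith
  nlinarith

theorem Pt.between {K : Set (ι → ℝ)} {l : ι} {e : ℝ} {G : Finset ι} {x : ι → ℝ} {c1 c2 t : ℝ}
    (h1 : Pt K l e G x c1) (h2 : Pt K l e G x c2) (a : c1 ≤ t) (b : t ≤ c2) : Pt K l e G x t := by
  refine ⟨h1.1, h1.2.1, fun y hy => ?_⟩
  have a1 := h1.2.2 y hy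
  have a2 := h2.2.2 y hy
  by_cases h : 0 ≤ S y - S x
  · nlinarith
  · nlinarith

theorem Pt.avoid {K : Set (ι → ℝ)} {l : ι} {e : ℝ} {G : Finset ι} {x : ι → ℝ} {t : ℝ}
    (h : ¬ Pt K l e G x t) : (∀ c, Pt K l e G x c → t < c) ∨ ∀ c, Pt K l e G x c → c < t := by
  by_contra hc
  push Not at hc
  obtain ⟨⟨c1, h1, a⟩, c2, h2, b⟩ := hc
  exact h (h1.between h2 a b)

theorem gapt {K : Set (ι → ℝ)} (hc : IsCompact K) (hv : Convex ℝ K) (hi : (interior K).Nonempty)
    (hp : ∀ σ : Equiv.Perm ι, ∀ x ∈ K, x ∘ σ ∈ K) {l : ι} {e : ℝ} (he : e = 1 ∨ e = -1)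
    {G H : Finset ι} (hP : Part l G H) (s1 : Sig K 1) (s2 : Sig K (-1))
    (hu : ∀ C : ℝ, ∃ x c, Pt K l e G x c ∧ C ≤ c) (hL : ∃ x c, Pt K l (-e) H x c) :
    ∃ t : ℝ, (∀ x, ¬ Pt K l e G x t) ∧ ∀ x, ¬ Pt K l (-e) H x (-t) := by
  have h1 : ∀ x c, Pt K l (-e) H x c → c ≤ 0 := fun x c h => by
    simpa using lemX hc hv hi hp he (Or.inl rfl) hP s1 (by simpa using hu) h
  by_cases hd : ∀ C : ℝ, ∃ x c, Pt K l e G x c ∧ C ≤ -1 * c
  · have h2 : ∀ x c, Pt K l (-e) H x c → c = 0 := fun x c h => by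
      have := lemX hc hv hi hp he (Or.inr rfl) hP s2 hd h
      linarith [h1 x c h]
    obtain ⟨x', c', h'⟩ := hL
    obtain rfl := h2 x' c' h'
    obtain ⟨δ, hδ, h3⟩ := lemY hc hi hp he hP h'
    refine ⟨δ / 2, fun x hx => ?_, fun x hx => ?_⟩
    · have := h3 x _ hx
      rw [abs_of_pos (by linarith)] at this
      linarith
    · have := h2 x _ hx
      linarith
  · push Not at hd
    obtain ⟨C, hC⟩ := hd
    refine ⟨-(|C| + 1), fun x hx => ?_, fun x hx => ?_⟩
    · have := hC x _ hx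
      linarith [le_abs_self C]
    · have := h1 x _ hx
      linarith [abs_nonneg C]

theorem thresh {K : Set (ι → ℝ)} (hc : IsCompact K) (hv : Convex ℝ K) (hi : (interior K).Nonempty)
    (hp : ∀ σ : Equiv.Perm ι, ∀ x ∈ K, x ∘ σ ∈ K) {l : ι}
    {G H : Finset ι} (hP : Part l G H) (s1 : Sig K 1) (s2 : Sig K (-1)) :
    ∃ t t' : ℝ, (∀ x, (∀ c, Pt K l 1 G x c → t < c) ∨ ∀ c, Pt K l 1 G x c → c < t') ∧
      ∀ x, (∀ c, Pt K l (-1) H x c → -t < c) ∨ ∀ c, Pt K l (-1) H x c → c < -t' := by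
  by_cases hL : ∃ x c, Pt K l (-1) H x c
  swap
  · obtain ⟨C, hC⟩ := lemT hc hi (l := l) (e := 1) (Or.inl rfl)
    refine ⟨-C, C, fun x => ?_, fun x => Or.inl fun c h => absurd ⟨x, c, h⟩ hL⟩
    by_contra hcon
    push Not at hcon
    obtain ⟨⟨c1, h1, a⟩, c2, h2, b⟩ := hcon
    rcases hC x h1.1 c1 c2 h1.2.2 h2.2.2 with h | h <;> linarith
  by_cases hR : ∃ x c, Pt K l 1 G x c
  swap
  · obtain ⟨C, hC⟩ := lemT hc hi (l := l) (e := -1) (Or.inr rfl)
    refine ⟨C, -C, fun x => Or.inl fun c h => absurd ⟨x, c, h⟩ hR, fun x => ?_⟩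
    by_contra hcon
    push Not at hcon
    obtain ⟨⟨c1, h1, a⟩, c2, h2, b⟩ := hcon
    rcases hC x h1.1 c1 c2 h1.2.2 h2.2.2 with h | h <;> linarith
  have key : ∃ t : ℝ, (∀ x, ¬ Pt K l 1 G x t) ∧ ∀ x, ¬ Pt K l (-1) H x (-t) := by
    by_cases hu : ∀ C : ℝ, ∃ x c, Pt K l 1 G x c ∧ C ≤ c
    · exact gapt hc hv hi hp (Or.inl rfl) hP s1 s2 hu hL
    by_cases hu2 : ∀ C : ℝ, ∃ x c, Pt K l (-1) H x c ∧ C ≤ c
    · obtain ⟨t, h1, h2⟩ := gapt hc hv hi hp (Or.inr rfl) hP.symm s1 s2 hu2 (by simpa using hR)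
      exact ⟨-t, by simpa using h2, by simpa using h1⟩
    push Not at hu hu2
    obtain ⟨C1, hC1⟩ := hu
    obtain ⟨C2, hC2⟩ := hu2
    by_cases hd : ∀ C : ℝ, ∃ x c, Pt K l (-1) H x c ∧ C ≤ -1 * c
    · have h1 : ∀ x c, Pt K l 1 G x c → 0 ≤ c := fun x c h => by
        have := lemX hc hv hi hp (Or.inr rfl) (Or.inr rfl) hP.symm s2 hd (x' := x) (c' := c)
          (by simpa using h)
        linarith
      refine ⟨-(|C2| + 1), fun x hx => ?_, fun x hx => ?_⟩
      · have := h1 x _ hx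
        linarith [abs_nonneg C2]
      · have := hC2 x _ hx
        linarith [le_abs_self C2]
    · push Not at hd
      obtain ⟨C3, hC3⟩ := hd
      refine ⟨|C1| + |C3|, fun x hx => ?_, fun x hx => ?_⟩
      · have := hC1 x _ hx
        linarith [le_abs_self C1, abs_nonneg C3]
      · have := hC3 x _ hx
        linarith [le_abs_self C3, abs_nonneg C1]
  obtain ⟨t, h1, h2⟩ := key
  exact ⟨t, t, fun x => Pt.avoid (h1 x), fun x => Pt.avoid (h2 x)⟩

end Pool.Agent.H751Z.Ill
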